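import Pool.Agent.H174.GP.StD

open MeasureTheory ProbabilityTheory Finset Filter Topology

namespace Pool.Agent.H895.GP174

lemma take_le (l : List ℕ) (k x : ℕ) : (l.take k).sum ≤ (l.map (fun a => a - x)).sum + k * x := by
  induction l generalizing k with
  | nil => simp
  | cons a l ih =>
    cases k with
    | zero => simp
    | succ k =>
      have h := ih k
      rw [List.take_succ_cons, List.sum_cons, List.map_cons, List.sum_cons, Nat.succ_mul]
      have h2 : a ≤ a - x + x := by omega
      omega

lemma take_eq (l : List ℕ) (hl : l.Pairwise (· ≥ ·)) (x : ℕ) :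
    ∃ k, (l.take k).sum = (l.map (fun a => a - x)).sum + k * x := by
  induction l with
  | nil => exact ⟨0, by simp⟩
  | cons a l ih =>
    rw [List.pairwise_cons] at hl
    by_cases hax : a ≤ x
    · refine ⟨0, ?_⟩
      have h0 : ((a :: l).map (fun a => a - x)).sum = 0 := by
        rw [List.sum_eq_zero_iff]
        intro y hy
        rw [List.mem_map] at hy
        obtain ⟨b, hb, rfl⟩ := hy
        rw [List.mem_cons] at hb
        rcases hb with rfl | hb
        · omega
        · have := hl.1 b hb
          omega
      rw [h0]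
      simp
    · obtain ⟨k, hk⟩ := ih hl.2
      refine ⟨k + 1, ?_⟩
      rw [List.take_succ_cons, List.sum_cons, List.map_cons, List.sum_cons, Nat.succ_mul, hk]
      omega

lemma sum_sub_le (s t : Multiset ℕ) (h : Pool.Agent.H174.GP.DomM s t) (x : ℕ) :
    (s.map (fun a => a - x)).sum ≤ (t.map (fun a => a - x)).sum := by
  obtain ⟨k, hk⟩ := take_eq (s.sort (· ≥ ·)) (Multiset.pairwise_sort s (· ≥ ·)) x
  have h1 := h k
  have h2 := take_le (t.sort (· ≥ ·)) k x
  have e : ∀ u : Multiset ℕ, ((u.sort (· ≥ ·)).map (fun a => a - x)).sum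
      = (u.map (fun a => a - x)).sum := by
    intro u
    conv_rhs => rw [← Multiset.sort_eq u (· ≥ ·)]
    rw [Multiset.map_coe, Multiset.sum_coe]
  rw [e] at hk h2
  omega

lemma sum_split (s : Multiset ℕ) (x : ℕ) :
    s.sum = (s.map (fun a => min a x)).sum + (s.map (fun a => a - x)).sum := by
  rw [← Multiset.sum_map_add]
  conv_lhs => rw [← Multiset.map_id s]
  congr 1
  apply Multiset.map_congr rfl
  intro a _
  show a = min a x + (a - x)
  omega

theorem gp_dual1 : Pool.Agent.H174.GP.S_dual1 := by
  intro s t hst h x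
  have h1 := sum_sub_le s t h x
  have h2 := sum_split s x
  have h3 := sum_split t x
  omega

end Pool.Agent.H895.GP174
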